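import Pool.Agent.Q227.PX.Red

/-!
# Pomax games on posets of height two are PSPACE-complete

The reduction is from quantified formulas in conjunctive normal form. Black is the universal player
and moves first, White is the existential player. There are `2 n` groups of two maximal elements
(tops) each for a formula with `n` variables; the groups with an even number are black, the others
are white. Deleting one top of a group means choosing a truth value; the variable `i` belongs to
the group `2 i` if it is universal and to the group `2 i + 1` if it is existential. All other
elements (bottoms) are below some tops and can be deleted when these tops have been deleted:

* below each top of the group `j + 1` there are `C` elements of the colour of group `j`, and below
  each pair of tops, one of group `j` and one of group `j + 1`, there are `C` elements of the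
  colour of group `j + 1`. So if the players delete tops in the order of the groups both get the
  same number of available bottoms; whoever leaves out a group gets fewer than the opponent;
* for each clause there is a black element below the tops which falsify its literals;
* below both tops of a group there are many elements of the colour of the other player.

If Black starts and the formula is true then White answers by the strategy for the formula, or by
deleting a bottom if Black does so or makes a mistake, and wins. If the formula is false, Black
has at the end an additional bottom and wins. If White starts then he has to leave out the
first group and loses. So the game equals `0` if and only if the formula is true.
-/

namespace Pool.Agent.Results.MP_26a3fe_lc.PomaxHeightTwo

open Pool.Agent.NPC Pool.Agent.H623R2.PS Pool.Agent.Q227.PX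

/-- **The outcome of pomax games on coloured posets of height at most two is PSPACE-complete**
(for each of the two starting players), and so is the problem whether such a game equals `0`. -/
theorem result : (∀ s : Bool, PSPACEComplete (lang (WhiteWins s))) ∧
    PSPACEComplete (lang IsZero) := ⟨whiteWins_complete, isZero_complete⟩

end Pool.Agent.Results.MP_26a3fe_lc.PomaxHeightTwo
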